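import Pool.Agent.X13.MC.Rankin

/-!
# The logarithm of the number of multinomial coefficients is `o(√n)`
-/

open Finset Filter

namespace Pool.Agent.X13.MC

lemma main_bound (n : ℕ) (Y : ℝ) (hY : 1 ≤ Y) (T : ℝ)
    (hT : ∑ i ∈ Finset.range n, (2 * (i : ℝ) + 1) / (Y ^ 2 + (i : ℝ) ^ 2) *
      ((n : ℝ) / ((rho i : ℝ) - 1)) ≤ T) :
    Real.log (M n) ≤ T + Real.pi * Y := by
  classical
  have hY0 : 0 < Y := by linarith
  let r : ℕ → ℝ := fun i => Y ^ 2 / (Y ^ 2 + ((i : ℝ) + 1) ^ 2)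
  have hr0 : ∀ i, 0 ≤ r i := fun i => by positivity
  have hr1 : ∀ i, r i < 1 := by
    intro i
    simp only [r]
    rw [div_lt_one (by positivity)]
    have : (0 : ℝ) < ((i : ℝ) + 1) ^ 2 := by positivity
    linarith
  have hR := rankin n r hr0 hr1
  have e1 : ∏ i : Fin n, (1 - r i)⁻¹ = ∏ i ∈ Finset.range n, (1 + Y ^ 2 / ((i : ℝ) + 1) ^ 2) := by
    rw [← Fin.prod_univ_eq_prod_range (fun i => (1 + Y ^ 2 / ((i : ℝ) + 1) ^ 2)) n]
    refine Finset.prod_congr rfl fun i _ => ?_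
    simp only [r]
    have h1 : Y ^ 2 + (((i : ℕ) : ℝ) + 1) ^ 2 ≠ 0 := by positivity
    have h2 : (((i : ℕ) : ℝ) + 1) ^ 2 ≠ 0 := by positivity
    have h3 : 1 - Y ^ 2 / (Y ^ 2 + (((i : ℕ) : ℝ) + 1) ^ 2) =
        (((i : ℕ) : ℝ) + 1) ^ 2 / (Y ^ 2 + (((i : ℕ) : ℝ) + 1) ^ 2) := by
      field_simp
      ring
    rw [h3, inv_div]
    field_simp
    ring
  rw [e1] at hR
  have hR2 := hR.trans (prod_le_exp Y hY n)
  let U : ℕ → ℝ := fun i => Real.log ((Y ^ 2 + (i : ℝ) ^ 2) / Y ^ 2)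
  have hU0 : U 0 = 0 := by
    simp only [U]
    rw [Nat.cast_zero, zero_pow (by norm_num), add_zero, div_self (by positivity), Real.log_one]
  have hUmono : ∀ i, 0 ≤ U (i + 1) - U i ∧
      U (i + 1) - U i ≤ (2 * (i : ℝ) + 1) / (Y ^ 2 + (i : ℝ) ^ 2) := by
    intro i
    have hpos : (0 : ℝ) < Y ^ 2 + (i : ℝ) ^ 2 := by positivity
    have hpos' : (0 : ℝ) < Y ^ 2 + ((i + 1 : ℕ) : ℝ) ^ 2 := by positivity
    have e : U (i + 1) - U i = Real.log ((Y ^ 2 + ((i + 1 : ℕ) : ℝ) ^ 2) / (Y ^ 2 + (i : ℝ) ^ 2)) := by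
      simp only [U]
      rw [Real.log_div hpos'.ne' (by positivity), Real.log_div hpos.ne' (by positivity),
        Real.log_div hpos'.ne' hpos.ne']
      ring
    rw [e]
    constructor
    · apply Real.log_nonneg
      rw [one_le_div hpos]
      push_cast
      nlinarith [(Nat.cast_nonneg i : (0 : ℝ) ≤ i)]
    · refine (Real.log_le_sub_one_of_pos (by positivity)).trans (le_of_eq ?_)
      push_cast
      field_simp
      ring
  have hUn : ∀ i, 0 ≤ U i := by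
    intro i
    induction i with
    | zero => rw [hU0]
    | succ i ih => linarith [(hUmono i).1]
  have hlow : ∀ D ∈ (denoms_finite n).toFinset,
      Real.exp (-T) ≤ ∏ i : Fin n, r i ^ (ex D i - ex D (i + 1)) := by
    intro D hD
    rw [Set.Finite.mem_toFinset] at hD
    have hre : ∀ i : ℕ, r i = Real.exp (-U (i + 1)) := by
      intro i
      simp only [r, U]
      rw [Real.exp_neg, Real.exp_log (by positivity), inv_div]
      push_cast
      rfl
    have e2 : ∏ i : Fin n, r i ^ (ex D i - ex D (i + 1)) =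
        Real.exp (-∑ i ∈ Finset.range n, U (i + 1) * ((ex D i : ℝ) - (ex D (i + 1) : ℝ))) := by
      rw [Fin.prod_univ_eq_prod_range (fun i => r i ^ (ex D i - ex D (i + 1))) n,
        ← Finset.sum_neg_distrib, Real.exp_sum]
      refine Finset.prod_congr rfl fun i _ => ?_
      rw [hre, ← Real.exp_nat_mul, Nat.cast_sub (ex_antitone hD i)]
      congr 1
      ring
    rw [e2, Real.exp_le_exp, neg_le_neg_iff, abel U (fun i => (ex D i : ℝ)) n hU0]
    refine le_trans ?_ hT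
    have h3 : 0 ≤ U n * (ex D n : ℝ) := mul_nonneg (hUn n) (Nat.cast_nonneg _)
    have h4 : ∑ i ∈ Finset.range n, (U (i + 1) - U i) * (ex D i : ℝ) ≤
        ∑ i ∈ Finset.range n, (2 * (i : ℝ) + 1) / (Y ^ 2 + (i : ℝ) ^ 2) *
          ((n : ℝ) / ((rho i : ℝ) - 1)) := by
      apply Finset.sum_le_sum
      intro i _
      apply mul_le_mul (hUmono i).2 ?_ (Nat.cast_nonneg _) (by positivity)
      have h5 := ex_bound hD i
      have h6 := rho_ge i
      have h7 : (0 : ℝ) < (rho i : ℝ) - 1 := by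
        have : ((i + 2 : ℕ) : ℝ) ≤ (rho i : ℝ) := by exact_mod_cast h6
        push_cast at this
        have := (Nat.cast_nonneg i : (0 : ℝ) ≤ i)
        linarith
      rw [le_div_iff₀ h7]
      have h8 : (((rho i - 1) * ex D i : ℕ) : ℝ) ≤ (n : ℝ) := by exact_mod_cast h5
      rw [Nat.cast_mul, Nat.cast_sub (by omega), Nat.cast_one] at h8
      linarith
    linarith
  have hcard : ((denoms n).ncard : ℝ) * Real.exp (-T) ≤ Real.exp (Real.pi * Y) := by
    rw [Set.ncard_eq_toFinset_card _ (denoms_finite n)]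
    refine le_trans ?_ hR2
    rw [← nsmul_eq_mul]
    exact Finset.card_nsmul_le_sum _ _ _ hlow
  have hM : (M n : ℝ) ≤ ((denoms n).ncard : ℝ) := by exact_mod_cast M_le n
  have hMpos : (0 : ℝ) < (M n : ℝ) := by exact_mod_cast M_pos n
  rw [Real.log_le_iff_le_exp hMpos, Real.exp_add]
  have h9 : (M n : ℝ) * Real.exp (-T) ≤ Real.exp (Real.pi * Y) :=
    (mul_le_mul_of_nonneg_right hM (Real.exp_pos _).le).trans hcard
  rw [Real.exp_neg, ← div_eq_mul_inv, div_le_iff₀ (Real.exp_pos _)] at h9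
  linarith

lemma primeCounting_rho (i : ℕ) : Nat.primeCounting (rho i) = i + 1 := by
  rw [Nat.primeCounting, Nat.primeCounting', Nat.count_succ, if_pos (rho_prime i)]
  have := Nat.primeCounting'_nth_eq i
  rw [Nat.primeCounting'] at this
  rw [this]

lemma rho_density (K : ℝ) (hK : 0 < K) : ∃ i₀ : ℕ, ∀ i, i₀ ≤ i → K * ((i : ℝ) + 1) ≤ (rho i : ℝ) - 1 := by
  have h1 := Chebyshev.eventually_primeCounting_le (ε := 1) one_pos
  have h2 := Real.tendsto_log_atTop.eventually_ge_atTop ((Real.log 4 + 1) * (K + 1))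
  obtain ⟨X, hX⟩ := (h1.and (h2.and (eventually_gt_atTop (1 : ℝ)))).exists_forall_of_atTop
  obtain ⟨i₀, hi₀⟩ := exists_nat_gt X
  refine ⟨i₀, fun i hi => ?_⟩
  have h3 : X ≤ (rho i : ℝ) := by
    have : ((i + 2 : ℕ) : ℝ) ≤ (rho i : ℝ) := by exact_mod_cast rho_ge i
    push_cast at this
    have h4 : (i₀ : ℝ) ≤ (i : ℝ) := by exact_mod_cast hi
    linarith
  obtain ⟨h5, h6, h7⟩ := hX _ h3
  rw [Nat.floor_natCast, primeCounting_rho] at h5
  have hlog4 : 0 < Real.log 4 := Real.log_pos (by norm_num)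
  have hlog : 0 < Real.log (rho i : ℝ) := Real.log_pos h7
  rw [le_div_iff₀ hlog] at h5
  push_cast at h5
  have hi0 : (0 : ℝ) ≤ i := Nat.cast_nonneg i
  have h8 : ((i : ℝ) + 1) * ((Real.log 4 + 1) * (K + 1)) ≤ (Real.log 4 + 1) * (rho i : ℝ) := by
    refine le_trans ?_ h5
    exact mul_le_mul_of_nonneg_left h6 (by positivity)
  have h9 : ((i : ℝ) + 1) * (K + 1) ≤ (rho i : ℝ) := by
    have : (Real.log 4 + 1) * (((i : ℝ) + 1) * (K + 1)) ≤ (Real.log 4 + 1) * (rho i : ℝ) := by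
      linarith
    exact le_of_mul_le_mul_left this (by linarith)
  nlinarith

/-- `log M(n) ≤ 2 i₀ n / Y² + 8 n / (K Y) + π Y`. -/
lemma explicit_bound (K : ℝ) (hK : 0 < K) : ∃ i₀ : ℕ, ∀ (n : ℕ) (Y : ℝ), 1 ≤ Y →
    Real.log (M n) ≤ 2 * i₀ * n / Y ^ 2 + 8 * n / (K * Y) + Real.pi * Y := by
  obtain ⟨i₀, hi₀⟩ := rho_density K hK
  refine ⟨i₀, fun n Y hY => main_bound n Y hY _ ?_⟩
  have hY0 : 0 < Y := by linarith
  have hterm : ∀ i ∈ Finset.range n, (2 * (i : ℝ) + 1) / (Y ^ 2 + (i : ℝ) ^ 2) *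
      ((n : ℝ) / ((rho i : ℝ) - 1)) ≤
      (if i < i₀ then 2 * n / Y ^ 2 else 0) + 2 * n / K * (1 / (Y ^ 2 + (i : ℝ) ^ 2)) := by
    intro i _
    have hi0 : (0 : ℝ) ≤ i := Nat.cast_nonneg i
    have hn0 : (0 : ℝ) ≤ n := Nat.cast_nonneg n
    have h1 : (i : ℝ) + 1 ≤ (rho i : ℝ) - 1 := by
      have : ((i + 2 : ℕ) : ℝ) ≤ (rho i : ℝ) := by exact_mod_cast rho_ge i
      push_cast at this
      linarith
    have h7 : 0 < (rho i : ℝ) - 1 := by linarith
    split_ifs with hlt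
    · have h2 : (2 * (i : ℝ) + 1) / (Y ^ 2 + (i : ℝ) ^ 2) * ((n : ℝ) / ((rho i : ℝ) - 1)) ≤
          2 * n / Y ^ 2 := by
        rw [div_mul_div_comm, div_le_div_iff₀ (mul_pos (by positivity) h7) (by positivity)]
        have h3 : (2 * (i : ℝ) + 1) ≤ 2 * ((rho i : ℝ) - 1) := by linarith
        have h4 : Y ^ 2 ≤ Y ^ 2 + (i : ℝ) ^ 2 := by nlinarith
        calc (2 * (i : ℝ) + 1) * n * Y ^ 2 ≤ (2 * ((rho i : ℝ) - 1)) * n * (Y ^ 2 + (i : ℝ) ^ 2) := by
              apply mul_le_mul _ h4 (by positivity) _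
              · exact mul_le_mul_of_nonneg_right h3 hn0
              · exact mul_nonneg (by linarith) hn0
          _ = 2 * n * ((Y ^ 2 + (i : ℝ) ^ 2) * ((rho i : ℝ) - 1)) := by ring
      have h5 : 0 ≤ 2 * n / K * (1 / (Y ^ 2 + (i : ℝ) ^ 2)) := by positivity
      linarith
    · have h2 := hi₀ i (not_lt.1 hlt)
      rw [zero_add, div_mul_div_comm, div_mul_div_comm,
        div_le_div_iff₀ (mul_pos (by positivity) h7) (by positivity)]
      have h3 : (2 * (i : ℝ) + 1) * K ≤ 2 * ((rho i : ℝ) - 1) := by nlinarith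
      calc (2 * (i : ℝ) + 1) * n * (K * (Y ^ 2 + (i : ℝ) ^ 2))
          = ((2 * (i : ℝ) + 1) * K) * (n * (Y ^ 2 + (i : ℝ) ^ 2)) := by ring
        _ ≤ (2 * ((rho i : ℝ) - 1)) * (n * (Y ^ 2 + (i : ℝ) ^ 2)) :=
            mul_le_mul_of_nonneg_right h3 (by positivity)
        _ = 2 * n * 1 * ((Y ^ 2 + (i : ℝ) ^ 2) * ((rho i : ℝ) - 1)) := by ring
  refine (Finset.sum_le_sum hterm).trans ?_
  rw [Finset.sum_add_distrib, ← Finset.mul_sum]
  have h1 : ∑ i ∈ Finset.range n, (if i < i₀ then 2 * (n : ℝ) / Y ^ 2 else 0) ≤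
      2 * i₀ * n / Y ^ 2 := by
    rw [← Finset.sum_filter, Finset.sum_const, nsmul_eq_mul]
    have h2 : ((Finset.filter (fun i => i < i₀) (Finset.range n)).card : ℝ) ≤ i₀ := by
      have : (Finset.filter (fun i => i < i₀) (Finset.range n)) ⊆ Finset.range i₀ := by
        intro x hx
        rw [Finset.mem_filter] at hx
        exact Finset.mem_range.2 hx.2
      have := Finset.card_le_card this
      rw [Finset.card_range] at this
      exact_mod_cast this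
    calc _ ≤ (i₀ : ℝ) * (2 * (n : ℝ) / Y ^ 2) := mul_le_mul_of_nonneg_right h2 (by positivity)
      _ = _ := by ring
  have h2 := mul_le_mul_of_nonneg_left (sum_inv_le Y hY n)
    (show (0 : ℝ) ≤ 2 * n / K by positivity)
  have h3 : 2 * (n : ℝ) / K * (4 / Y) = 8 * n / (K * Y) := by
    field_simp
    ring
  linarith

/-- `log M(n) = o(√n)`. -/
lemma log_M_small (ε : ℝ) (hε : 0 < ε) : ∃ N : ℕ, ∀ n, N ≤ n → Real.log (M n) ≤ ε * Real.sqrt n := by
  set δ := ε / 12 with hδ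
  have hδ0 : 0 < δ := by positivity
  obtain ⟨i₀, h⟩ := explicit_bound (24 / (δ * ε)) (by positivity)
  obtain ⟨N₁, hN₁⟩ := exists_nat_gt ((1 / δ) ^ 2)
  obtain ⟨N₂, hN₂⟩ := exists_nat_gt ((2 * i₀ / δ ^ 2 / (ε / 3)) ^ 2)
  refine ⟨max (max N₁ N₂) 1, fun n hn => ?_⟩
  have hn1 : (1 : ℝ) ≤ n := by exact_mod_cast (le_trans (le_max_right _ _) hn)
  have hnN1 : (N₁ : ℝ) ≤ n := by
    exact_mod_cast (le_trans (le_trans (le_max_left _ _) (le_max_left _ _)) hn)
  have hnN2 : (N₂ : ℝ) ≤ n := by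
    exact_mod_cast (le_trans (le_trans (le_max_right _ _) (le_max_left _ _)) hn)
  set s := Real.sqrt n with hs
  have hs2 : s ^ 2 = n := Real.sq_sqrt (by linarith)
  have hs0 : 0 < s := Real.sqrt_pos.2 (by linarith)
  have h1 : 1 / δ ≤ s := by
    apply Real.le_sqrt_of_sq_le
    linarith
  have h2 : 2 * i₀ / δ ^ 2 / (ε / 3) ≤ s := by
    apply Real.le_sqrt_of_sq_le
    linarith
  have hY : 1 ≤ δ * s := by
    rw [div_le_iff₀ hδ0] at h1
    linarith
  have h3 := h n (δ * s) hY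
  rw [div_le_iff₀ (by positivity)] at h2
  have e1 : 2 * (i₀ : ℝ) * n / (δ * s) ^ 2 = 2 * i₀ / δ ^ 2 := by
    rw [mul_pow, hs2]
    field_simp
  have e2 : 8 * (n : ℝ) / (24 / (δ * ε) * (δ * s)) = ε / 3 * s := by
    rw [← hs2]
    field_simp
    norm_num
  have e3 : Real.pi * (δ * s) ≤ ε / 3 * s := by
    have : Real.pi < 4 := Real.pi_lt_four
    have h5 : Real.pi * δ ≤ ε / 3 := by rw [hδ]; nlinarith
    nlinarith
  rw [e1, e2] at h3
  linarith

theorem tendsto_log_M : Tendsto (fun n : ℕ => Real.log (M n) / Real.sqrt n) atTop (nhds 0) := by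
  rw [Metric.tendsto_atTop]
  intro ε hε
  obtain ⟨N, hN⟩ := log_M_small (ε / 2) (by positivity)
  refine ⟨max N 1, fun n hn => ?_⟩
  have hn1 : (1 : ℝ) ≤ n := by exact_mod_cast (le_trans (le_max_right _ _) hn)
  have hs0 : 0 < Real.sqrt n := Real.sqrt_pos.2 (by linarith)
  have h1 := hN n (le_trans (le_max_left _ _) hn)
  have h2 : 0 ≤ Real.log (M n) := Real.log_nonneg (by exact_mod_cast M_pos n)
  rw [Real.dist_eq, sub_zero, abs_of_nonneg (by positivity), div_lt_iff₀ hs0]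
  nlinarith

end Pool.Agent.X13.MC
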