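import Mathlib

/-!
# Counting distinct multinomial coefficients
-/

open Finset

namespace Pool.Agent.X13.MC

/-- The set of integers of the form `n! / (i_1! ⋯ i_k!)` with `k ≥ 1` and
`i_1 + ⋯ + i_k = n`. -/
def coeffs (n : ℕ) : Set ℕ :=
  {m | ∃ k : ℕ, 1 ≤ k ∧ ∃ i : Fin k → ℕ, ∑ j, i j = n ∧
    m = n.factorial / ∏ j, (i j).factorial}

/-- The number of distinct multinomial coefficients with upper entry `n`. -/
noncomputable def M (n : ℕ) : ℕ := (coeffs n).ncard

/-- The denominators. -/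
def denoms (n : ℕ) : Set ℕ :=
  {D | ∃ k : ℕ, 1 ≤ k ∧ ∃ i : Fin k → ℕ, ∑ j, i j = n ∧ D = ∏ j, (i j).factorial}

lemma coeffs_eq (n : ℕ) : coeffs n = (fun D => n.factorial / D) '' denoms n := by
  ext m
  constructor
  · rintro ⟨k, hk, i, hi, rfl⟩
    exact ⟨_, ⟨k, hk, i, hi, rfl⟩, rfl⟩
  · rintro ⟨_, ⟨k, hk, i, hi, rfl⟩, rfl⟩
    exact ⟨k, hk, i, hi, rfl⟩

lemma denoms_finite (n : ℕ) : (denoms n).Finite := by
  apply (Set.finite_le_nat n.factorial).subset
  rintro D ⟨k, _, i, hi, rfl⟩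
  apply Nat.le_of_dvd (Nat.factorial_pos n)
  have := Nat.prod_factorial_dvd_factorial_sum Finset.univ i
  rwa [hi] at this

lemma coeffs_finite (n : ℕ) : (coeffs n).Finite := by
  rw [coeffs_eq]
  exact (denoms_finite n).image _

lemma M_le (n : ℕ) : M n ≤ (denoms n).ncard := by
  unfold M
  rw [coeffs_eq]
  exact Set.ncard_image_le (denoms_finite n)

lemma M_pos (n : ℕ) : 0 < M n := by
  unfold M
  rw [Set.ncard_pos (coeffs_finite n)]
  exact ⟨_, 1, le_rfl, fun _ => n, by simp, rfl⟩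

/-- The `i`-th prime. -/
noncomputable abbrev rho (i : ℕ) : ℕ := Nat.nth Nat.Prime i

/-- The exponent of the `i`-th prime. -/
noncomputable def ex (D i : ℕ) : ℕ := D.factorization (rho i)

lemma rho_prime (i : ℕ) : (rho i).Prime := Nat.prime_nth_prime i

lemma rho_ge (i : ℕ) : i + 2 ≤ rho i := Nat.add_two_le_nth_prime i

lemma rho_lt (i : ℕ) : rho i < rho (i + 1) :=
  Nat.nth_strictMono Nat.infinite_setOf_prime (Nat.lt_succ_self i)

lemma fact_mono {p q : ℕ} (hp : p.Prime) (hq : q.Prime) (h : p ≤ q) (m : ℕ) :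
    m.factorial.factorization q ≤ m.factorial.factorization p := by
  have hb : ∀ r : ℕ, Nat.log r m < m + 1 := fun r => Nat.lt_succ_of_le (Nat.log_le_self r m)
  rw [Nat.factorization_factorial hp (hb p), Nat.factorization_factorial hq (hb q)]
  apply Finset.sum_le_sum
  intro i _
  exact Nat.div_le_div_left (Nat.pow_le_pow_left h i) (pow_pos hp.pos i)

lemma denom_ne_zero {n D : ℕ} (hD : D ∈ denoms n) : D ≠ 0 := by
  obtain ⟨k, _, i, hi, rfl⟩ := hD
  exact Finset.prod_ne_zero_iff.2 fun j _ => Nat.factorial_ne_zero _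

lemma fact_prod {k : ℕ} (i : Fin k → ℕ) (p : ℕ) :
    (∏ j, (i j).factorial).factorization p = ∑ j, ((i j).factorial).factorization p := by
  rw [Nat.factorization_prod_apply]
  exact fun j _ => Nat.factorial_ne_zero _

lemma ex_antitone {n D : ℕ} (hD : D ∈ denoms n) (i : ℕ) : ex D (i + 1) ≤ ex D i := by
  obtain ⟨k, _, f, hf, rfl⟩ := hD
  unfold ex
  rw [fact_prod, fact_prod]
  exact Finset.sum_le_sum fun j _ => fact_mono (rho_prime _) (rho_prime _) (rho_lt i).le _

lemma ex_bound {n D : ℕ} (hD : D ∈ denoms n) (i : ℕ) : (rho i - 1) * ex D i ≤ n := by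
  obtain ⟨k, _, f, hf, rfl⟩ := hD
  unfold ex
  rw [fact_prod, Finset.mul_sum]
  calc ∑ j, (rho i - 1) * ((f j).factorial).factorization (rho i) ≤ ∑ j, f j := by
        apply Finset.sum_le_sum
        intro j _
        rw [Nat.sub_one_mul_factorization_factorial (rho_prime i)]
        exact Nat.sub_le _ _
    _ = n := hf

lemma ex_zero {n D : ℕ} (hD : D ∈ denoms n) (i : ℕ) (hi : n ≤ i) : ex D i = 0 := by
  have h1 := ex_bound hD i
  have h2 := rho_ge i
  by_contra hne
  have h3 : 1 ≤ ex D i := Nat.one_le_iff_ne_zero.2 hne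
  have h4 : n + 1 ≤ rho i - 1 := by omega
  have : (n + 1) * 1 ≤ (rho i - 1) * ex D i := Nat.mul_le_mul h4 h3
  omega

lemma ex_inj {n D D' : ℕ} (hD : D ∈ denoms n) (hD' : D' ∈ denoms n)
    (h : ∀ i, i < n → ex D i - ex D (i + 1) = ex D' i - ex D' (i + 1)) : D = D' := by
  have key : ∀ t, t ≤ n → ex D (n - t) = ex D' (n - t) := by
    intro t
    induction t with
    | zero =>
      intro _
      rw [Nat.sub_zero, ex_zero hD n le_rfl, ex_zero hD' n le_rfl]
    | succ t ih =>
      intro ht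
      have h1 := h (n - (t + 1)) (by omega)
      have h2 := ih (by omega)
      rw [show n - (t + 1) + 1 = n - t by omega] at h1
      have h3 := ex_antitone hD (n - (t + 1))
      have h4 := ex_antitone hD' (n - (t + 1))
      rw [show n - (t + 1) + 1 = n - t by omega] at h3 h4
      omega
  have all : ∀ i, ex D i = ex D' i := by
    intro i
    rcases le_or_gt n i with hi | hi
    · rw [ex_zero hD i hi, ex_zero hD' i hi]
    · have := key (n - i) (by omega)
      rwa [show n - (n - i) = i by omega] at this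
  apply Nat.eq_of_factorization_eq (denom_ne_zero hD) (denom_ne_zero hD')
  intro p
  by_cases hp : p.Prime
  · obtain ⟨i, hi⟩ : ∃ i, rho i = p := by
      have : p ∈ Set.range (Nat.nth Nat.Prime) := by
        rw [Nat.range_nth_of_infinite Nat.infinite_setOf_prime]
        exact hp
      obtain ⟨i, hi⟩ := this
      exact ⟨i, hi⟩
    have := all i
    unfold ex at this
    rwa [hi] at this
  · rw [Nat.factorization_eq_zero_of_not_prime D hp, Nat.factorization_eq_zero_of_not_prime D' hp]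

lemma geom_le (r : ℝ) (h0 : 0 ≤ r) (h1 : r < 1) (B : ℕ) :
    ∑ t ∈ Finset.range B, r ^ t ≤ (1 - r)⁻¹ := by
  rw [← tsum_geometric_of_lt_one h0 h1]
  exact (summable_geometric_of_lt_one h0 h1).sum_le_tsum _ (fun _ _ => pow_nonneg h0 _)

/-- Rankin's bound. -/
lemma rankin (n : ℕ) (r : ℕ → ℝ) (h0 : ∀ i, 0 ≤ r i) (h1 : ∀ i, r i < 1) :
    ∑ D ∈ (denoms_finite n).toFinset, ∏ i : Fin n, r i ^ (ex D i - ex D (i + 1)) ≤
      ∏ i : Fin n, (1 - r i)⁻¹ := by
  classical
  let φ : ℕ → (Fin n → ℕ) := fun D i => ex D i - ex D (i + 1)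
  have hinj : Set.InjOn φ ((denoms_finite n).toFinset : Set ℕ) := by
    intro D hD D' hD' he
    simp only [Set.Finite.coe_toFinset] at hD hD'
    apply ex_inj hD hD'
    intro i hi
    exact congrFun he ⟨i, hi⟩
  have hmem : ∀ D ∈ (denoms_finite n).toFinset,
      φ D ∈ Fintype.piFinset (fun _ : Fin n => Finset.range (n + 1)) := by
    intro D hD
    rw [Set.Finite.mem_toFinset] at hD
    rw [Fintype.mem_piFinset]
    intro i
    rw [Finset.mem_range]
    have h2 := ex_bound hD i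
    have h3 := rho_ge i
    have h4 : 1 * ex D i ≤ (rho i - 1) * ex D i := Nat.mul_le_mul_right _ (by omega)
    simp only [φ]
    omega
  calc ∑ D ∈ (denoms_finite n).toFinset, ∏ i : Fin n, r i ^ (ex D i - ex D (i + 1))
      = ∑ d ∈ (denoms_finite n).toFinset.image φ, ∏ i : Fin n, r i ^ (d i) := by
        rw [Finset.sum_image hinj]
    _ ≤ ∑ d ∈ Fintype.piFinset (fun _ : Fin n => Finset.range (n + 1)),
          ∏ i : Fin n, r i ^ (d i) := by
        apply Finset.sum_le_sum_of_subset_of_nonneg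
        · intro d hd
          rw [Finset.mem_image] at hd
          obtain ⟨D, hD, rfl⟩ := hd
          exact hmem D hD
        · intro d _ _
          exact Finset.prod_nonneg fun i _ => pow_nonneg (h0 i) _
    _ = ∏ i : Fin n, ∑ t ∈ Finset.range (n + 1), r i ^ t := by
        rw [Finset.prod_univ_sum]
    _ ≤ ∏ i : Fin n, (1 - r i)⁻¹ := by
        apply Finset.prod_le_prod
        · intro i _
          exact Finset.sum_nonneg fun t _ => pow_nonneg (h0 i) _
        · intro i _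
          exact geom_le _ (h0 i) (h1 i) _

/-- Abel summation. -/
lemma abel (U : ℕ → ℝ) (x : ℕ → ℝ) (n : ℕ) (h : U 0 = 0) :
    ∑ i ∈ Finset.range n, U (i + 1) * (x i - x (i + 1)) =
      ∑ i ∈ Finset.range n, (U (i + 1) - U i) * x i - U n * x n := by
  induction n with
  | zero => simp [h]
  | succ n ih =>
    rw [Finset.sum_range_succ, Finset.sum_range_succ, ih]
    ring

lemma prod_le_exp (Y : ℝ) (hY : 1 ≤ Y) (n : ℕ) :
    ∏ i ∈ Finset.range n, (1 + Y ^ 2 / ((i : ℝ) + 1) ^ 2) ≤ Real.exp (Real.pi * Y) := by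
  have hY0 : 0 < Y := by linarith
  have h := Complex.tendsto_euler_sin_prod ((Y : ℂ) * Complex.I)
  have h2 := h.norm
  have e1 : ∀ n : ℕ, ‖(Real.pi : ℂ) * ((Y : ℂ) * Complex.I) *
      ∏ j ∈ Finset.range n, ((1 : ℂ) - ((Y : ℂ) * Complex.I) ^ 2 / ((j : ℂ) + 1) ^ 2)‖ =
      Real.pi * Y * ∏ j ∈ Finset.range n, (1 + Y ^ 2 / ((j : ℝ) + 1) ^ 2) := by
    intro n
    have : ∏ j ∈ Finset.range n, ((1 : ℂ) - ((Y : ℂ) * Complex.I) ^ 2 / ((j : ℂ) + 1) ^ 2) =
        ((∏ j ∈ Finset.range n, (1 + Y ^ 2 / ((j : ℝ) + 1) ^ 2) : ℝ) : ℂ) := by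
      push_cast
      refine Finset.prod_congr rfl fun j _ => ?_
      rw [mul_pow, Complex.I_sq]
      ring
    rw [this, norm_mul, norm_mul, norm_mul, Complex.norm_I, Complex.norm_real, Complex.norm_real,
      Complex.norm_real, Real.norm_of_nonneg Real.pi_pos.le, Real.norm_of_nonneg hY0.le,
      Real.norm_of_nonneg, mul_one]
    exact Finset.prod_nonneg fun j _ => by positivity
  have e2 : ‖Complex.sin ((Real.pi : ℂ) * ((Y : ℂ) * Complex.I))‖ = Real.sinh (Real.pi * Y) := by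
    have : (Real.pi : ℂ) * ((Y : ℂ) * Complex.I) = ((Real.pi * Y : ℝ) : ℂ) * Complex.I := by
      push_cast; ring
    rw [this, Complex.sin_mul_I, norm_mul, Complex.norm_I, mul_one, ← Complex.ofReal_sinh,
      Complex.norm_real, Real.norm_of_nonneg]
    rw [Real.sinh_nonneg_iff]
    positivity
  simp only [e1] at h2
  rw [e2] at h2
  have hmono : Monotone (fun n : ℕ => Real.pi * Y *
      ∏ j ∈ Finset.range n, (1 + Y ^ 2 / ((j : ℝ) + 1) ^ 2)) := by
    apply monotone_nat_of_le_succ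
    intro n
    rw [Finset.prod_range_succ]
    have h3 : 0 ≤ ∏ j ∈ Finset.range n, (1 + Y ^ 2 / ((j : ℝ) + 1) ^ 2) :=
      Finset.prod_nonneg fun j _ => by positivity
    have h4 : (1 : ℝ) ≤ 1 + Y ^ 2 / ((n : ℝ) + 1) ^ 2 := by
      have : 0 ≤ Y ^ 2 / ((n : ℝ) + 1) ^ 2 := by positivity
      linarith
    have h5 : 0 < Real.pi * Y := by positivity
    nlinarith [mul_nonneg h5.le (mul_nonneg h3 (sub_nonneg.2 h4))]
  have h3 := hmono.ge_of_tendsto h2 n
  have h4 : Real.sinh (Real.pi * Y) ≤ Real.exp (Real.pi * Y) := by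
    rw [Real.sinh_eq]
    have := Real.exp_pos (Real.pi * Y)
    have := Real.exp_pos (-(Real.pi * Y))
    linarith
  have h5 : 1 ≤ Real.pi * Y := by
    have := Real.pi_gt_three
    nlinarith
  have h6 : 0 ≤ ∏ j ∈ Finset.range n, (1 + Y ^ 2 / ((j : ℝ) + 1) ^ 2) :=
    Finset.prod_nonneg fun j _ => by positivity
  nlinarith

lemma sum_inv_le (Y : ℝ) (hY : 1 ≤ Y) (n : ℕ) :
    ∑ i ∈ Finset.range n, 1 / (Y ^ 2 + (i : ℝ) ^ 2) ≤ 4 / Y := by
  have hY0 : 0 < Y := by linarith
  have h : ∀ n : ℕ, ∑ i ∈ Finset.range n, 1 / (Y ^ 2 + (i : ℝ) ^ 2) ≤ 4 / Y - 4 / (Y + n) := by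
    intro n
    induction n with
    | zero =>
      simp only [Finset.range_zero, Finset.sum_empty, Nat.cast_zero, add_zero]
      rw [← sub_div]
      simp
    | succ n ih =>
      rw [Finset.sum_range_succ]
      have hn : (0 : ℝ) ≤ n := Nat.cast_nonneg n
      have h1 : 1 / (Y ^ 2 + (n : ℝ) ^ 2) ≤ 4 / (Y + n) - 4 / (Y + ((n + 1 : ℕ) : ℝ)) := by
        push_cast
        rw [div_sub_div _ _ (by positivity) (by positivity), div_le_div_iff₀ (by positivity)
          (by positivity)]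
        nlinarith [sq_nonneg (Y - n), mul_nonneg hY0.le hn, hY, hn]
      linarith
  have := h n
  have h2 : 0 ≤ 4 / (Y + (n : ℝ)) := by positivity
  linarith

end Pool.Agent.X13.MC
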